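import Mathlib

set_option autoImplicit false

namespace Pool.Agent.Results.MP_2d49c6_co.Exists

open Finset

/-- c is a FAT k-colouring of G with parameter α. -/
def IsFAT {V : Type} (G : SimpleGraph V) (k : ℕ) (c : V → Fin k) (α : ℝ) : Prop :=
  Function.Surjective c ∧ 0 ≤ α ∧ α ≤ 1 ∧ ∀ v i, ({w | G.Adj v w ∧ c w = i}.ncard : ℝ) =
    (if c v = i then 1 - ((k : ℝ) - 1) * α else α) * ((G.neighborSet v).ncard : ℝ)

/-- The FAT chromatic number. -/
noncomputable def chiFAT {V : Type} (G : SimpleGraph V) : ℕ :=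
  sSup {k | ∃ (c : V → Fin k) (α : ℝ), IsFAT G k c α}

variable {p : ℕ} [hp : Fact p.Prime]

theorem exists_char : ∃ ψ : AddChar (ZMod p) ℂ,
    ∀ f : ZMod p → ℤ, ∑ x, (f x : ℂ) * ψ x = 0 → ∀ x y, f x = f y := by
  have hζ := Complex.isPrimitiveRoot_exp p hp.out.ne_zero
  refine ⟨AddChar.zmodChar p hζ.pow_eq_one, fun f hf => ?_⟩
  simp only [AddChar.zmodChar_apply] at hf
  obtain ⟨n, rfl⟩ : ∃ n, p = n + 1 := ⟨p - 1, (Nat.succ_pred_eq_of_pos hp.out.pos).symm⟩
  exact (hζ.sum_eq_zero_iff_forall_eq_int hp.out f).1 hf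

theorem conv (ψ : AddChar (ZMod p) ℂ) (κ f : ZMod p → ℂ) :
    ∑ x, (∑ y, κ (y - x) * f y) * ψ x = (∑ z, κ (-z) * ψ z) * ∑ y, f y * ψ y := by
  simp only [sum_mul, mul_sum]
  rw [sum_comm]
  refine sum_congr rfl fun y _ => ?_
  rw [← Equiv.sum_comp (Equiv.addRight y)]
  refine sum_congr rfl fun z _ => ?_
  simp only [Equiv.coe_addRight, AddChar.map_add_eq_mul, sub_add_cancel_right]
  ring

def gr (k : ℕ) (S T : Finset (ZMod p)) (hS : ∀ x ∈ S, -x ∈ S) (hT : ∀ x ∈ T, -x ∈ T) (h0 : 0 ∉ S) :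
    SimpleGraph (ZMod p × Fin k) where
  Adj v w := w.1 - v.1 ∈ if v.2 = w.2 then S else T
  symm := ⟨fun v w h => by
    by_cases h1 : v.2 = w.2
    · rw [if_pos h1] at h
      rw [if_pos h1.symm]
      simpa using hS _ h
    · rw [if_neg h1] at h
      rw [if_neg (Ne.symm h1)]
      simpa using hT _ h⟩
  loopless := ⟨fun v h => h0 (by simpa using h)⟩

theorem const_fibre (k : ℕ) (hk : 2 ≤ k) (S T : Finset (ZMod p)) (τ z : ZMod p) (hτ : τ ∈ T)
    (hτS : τ ∉ S) (hτ0 : τ ≠ 0) (hzS : z ∉ S) (hzT : z ∉ T) (hz0 : z ≠ 0)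
    (f : ZMod p × Fin k → ℤ) (l : ℤ)
    (hf : ∀ v : ZMod p × Fin k,
      ∑ w : ZMod p × Fin k, (if w.1 - v.1 ∈ (if v.2 = w.2 then S else T) then f w else 0) = l * f v)
    (i : Fin k) (x y : ZMod p) : f (x, i) = f (y, i) := by
  obtain ⟨ψ, hψ⟩ := exists_char (p := p)
  let F : Fin k → ℂ := fun j => ∑ x, (f (x, j) : ℂ) * ψ x
  let c : Finset (ZMod p) → ℂ := fun U => ∑ z, (if -z ∈ U then 1 else 0) * ψ z
  have hF : ∀ i, ∑ j, c (if i = j then S else T) * F j = l * F i := by
    intro i
    simp only [c, F]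
    rw [sum_congr rfl fun j _ => (conv ψ (fun u => if u ∈ (if i = j then S else T) then 1 else 0)
      (fun y => (f (y, j) : ℂ))).symm, sum_comm, mul_sum]
    refine sum_congr rfl fun x _ => ?_
    have h1 := congrArg (Int.cast : ℤ → ℂ) (hf (x, i))
    rw [Fintype.sum_prod_type_right] at h1
    push_cast at h1
    rw [← sum_mul, ← mul_assoc, ← h1]
    simp
  have hF' : ∀ i, (c S - c T) * F i + c T * ∑ j, F j = l * F i := by
    intro i
    have e : ∀ j, c (if i = j then S else T) * F j =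
        (if i = j then (c S - c T) * F j else 0) + c T * F j := by
      intro j
      split_ifs <;> ring
    rw [← hF i, sum_congr rfl fun j _ => e j, sum_add_distrib, sum_ite_eq, if_pos (mem_univ _),
      ← mul_sum univ F]
  have nz : ∀ a : ℤ, a ≠ 0 → c S + a * c T - l ≠ 0 := by
    intro a ha h
    have := hψ (fun u => (if -u ∈ S then 1 else 0) + a * (if -u ∈ T then 1 else 0) -
      if u = 0 then l else 0) (by
        rw [← h]
        simp only [c]
        push_cast
        simp only [add_mul, sub_mul, sum_add_distrib, sum_sub_distrib, mul_sum, mul_assoc]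
        simp) (-τ) (-z)
    simp [hτ, hτS, hτ0, hzS, hzT, hz0] at this
    exact ha this
  have hsum : ∑ j, F j = 0 := by
    have h1 := sum_congr rfl fun i (_ : i ∈ univ) => hF' i
    rw [sum_add_distrib, ← mul_sum univ F, ← mul_sum univ F, sum_const, card_univ, Fintype.card_fin,
      nsmul_eq_mul] at h1
    refine (mul_eq_zero.1 ?_).resolve_left (nz ((k : ℤ) - 1) (by omega))
    push_cast
    linear_combination h1
  have hi : F i = 0 := by
    have h1 := hF' i
    rw [hsum] at h1
    refine (mul_eq_zero.1 ?_).resolve_left (nz (-1) (by omega))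
    push_cast
    linear_combination h1
  exact hψ (fun x => f (x, i)) hi x y

def sym (p : ℕ) [Fact p.Prime] (lo hi : ℕ) : Finset (ZMod p) :=
  (univ.filter fun x => x.val ∈ Ioc lo hi) ∪ (univ.filter fun x => (-x).val ∈ Ioc lo hi)

theorem mem_sym (lo hi : ℕ) (x : ZMod p) :
    x ∈ sym p lo hi ↔ (lo < x.val ∧ x.val ≤ hi) ∨ (lo < (-x).val ∧ (-x).val ≤ hi) := by
  simp [sym]

theorem sym_neg (lo hi : ℕ) : ∀ x ∈ sym p lo hi, -x ∈ sym p lo hi := by
  intro x hx
  rw [mem_sym] at hx ⊢
  rw [neg_neg]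
  exact hx.symm

theorem card_sym (lo hi : ℕ) (h : 2 * hi < p) : (sym p lo hi).card = 2 * (hi - lo) := by
  have h1 : (univ.filter fun x : ZMod p => x.val ∈ Ioc lo hi).card = hi - lo := by
    rw [← Nat.card_Ioc]
    refine card_nbij' ZMod.val (fun n => (n : ZMod p)) (fun x hx => by simpa using hx)
      (fun n hn => ?_) (fun x _ => by simp) (fun n hn => ?_)
    · have := (mem_Ioc.1 (mem_coe.1 hn)).2
      simpa [ZMod.val_cast_of_lt (show n < p by omega)] using hn
    · have := (mem_Ioc.1 (mem_coe.1 hn)).2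
      exact ZMod.val_cast_of_lt (show n < p by omega)
  have h2 : (univ.filter fun x : ZMod p => (-x).val ∈ Ioc lo hi).card = hi - lo := by
    rw [← h1]
    exact card_nbij' (fun x => -x) (fun x => -x) (fun x hx => by simpa using hx)
      (fun x hx => by simpa using hx) (fun x _ => by simp) (fun x _ => by simp)
  rw [sym, card_union_of_disjoint, h1, h2, two_mul]
  rw [disjoint_filter]
  intro x _ h3 h4
  rw [mem_Ioc] at h3 h4
  have := ZMod.neg_val x
  split_ifs at this with h5
  · subst h5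
    simp at h3
  · omega

theorem mem_sym_nat (lo hi n : ℕ) (h : 2 * hi < p) (hn : 2 * n < p) :
    (n : ZMod p) ∈ sym p lo hi ↔ lo < n ∧ n ≤ hi := by
  rw [mem_sym, ZMod.neg_val, ZMod.val_cast_of_lt (show n < p by omega)]
  split_ifs <;> omega

theorem cnt (k : ℕ) (S T : Finset (ZMod p)) (hS : ∀ x ∈ S, -x ∈ S) (hT : ∀ x ∈ T, -x ∈ T) (h0 : 0 ∉ S)
    (v : ZMod p × Fin k) (j : Fin k) :
    {w | (gr k S T hS hT h0).Adj v w ∧ w.2 = j}.ncard = (if v.2 = j then S else T).card := by
  rw [← Set.ncard_coe_finset]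
  symm
  refine Set.ncard_congr (fun u _ => (v.1 + u, j)) (fun u hu => ⟨?_, rfl⟩) (fun a b _ _ h => ?_) ?_
  · simpa [gr] using hu
  · simpa using h
  · rintro ⟨y, j'⟩ ⟨h1, rfl⟩
    exact ⟨y - v.1, h1, by simp⟩

theorem ncard_split {V : Type} [Fintype V] (G : SimpleGraph V) {k : ℕ} (c : V → Fin k) (v : V) :
    (G.neighborSet v).ncard = ∑ j, {w | G.Adj v w ∧ c w = j}.ncard := by
  classical
  rw [← G.coe_neighborFinset, Set.ncard_coe_finset, card_eq_sum_card_fiberwise (f := c) (t := univ) (by simp)]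
  refine sum_congr rfl fun j _ => ?_
  rw [← Set.ncard_coe_finset]
  congr 1
  ext w
  simp

theorem result (k : ℕ) (hk : 2 ≤ k) (α : ℚ) (h0 : 0 < α) (h1 : α ≤ 1 / ((k : ℚ) - 1)) :
    ∃ (V : Type) (_ : Fintype V) (G : SimpleGraph V), 2 ≤ Fintype.card V ∧ G.Connected ∧
      chiFAT G = k ∧ ∃ c : V → Fin k, IsFAT G k c α := by
  classical
  obtain ⟨a, ha⟩ : ∃ a : ℕ, α.num = a := ⟨α.num.toNat, (Int.toNat_of_nonneg (Rat.num_pos.2 h0).le).symm⟩
  have hapos : 0 < a := by have := Rat.num_pos.2 h0; omega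
  have hα : α * α.den = a := by rw [Rat.mul_den_eq_num, ha]; rfl
  have hk1 : (0 : ℚ) < (k : ℚ) - 1 := by
    have : (2 : ℚ) ≤ k := by exact_mod_cast hk
    linarith
  obtain ⟨u, hu⟩ : ∃ u, α.den = u + (k - 1) * a := by
    refine ⟨α.den - (k - 1) * a, (Nat.sub_add_cancel ?_).symm⟩
    rw [le_div_iff₀ hk1] at h1
    have : (((k - 1) * a : ℕ) : ℚ) ≤ α.den := by
      rw [Nat.cast_mul, Nat.cast_sub (by omega), ← hα]
      have : (0 : ℚ) ≤ α.den := by positivity
      push_cast
      nlinarith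
    exact_mod_cast this
  obtain ⟨p, hp1, hp⟩ := Nat.exists_infinite_primes (2 * (u + a + 1) + 1)
  have : Fact p.Prime := ⟨hp⟩
  have hm := fun lo hi n => mem_sym_nat (p := p) lo hi n
  have h0S : (0 : ZMod p) ∉ sym p 0 u := by simp [mem_sym]
  have hne : ∀ n : ℕ, 0 < n → n < p → (n : ZMod p) ≠ 0 := fun n h1 h2 h3 =>
    Nat.not_dvd_of_pos_of_lt h1 h2 ((ZMod.natCast_eq_zero_iff n p).1 h3)
  have hτ : ((u + a : ℕ) : ZMod p) ∈ sym p u (u + a) := (hm _ _ _ (by omega) (by omega)).2 (by omega)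
  let G := gr k (sym p 0 u) (sym p u (u + a)) (sym_neg _ _) (sym_neg _ _) h0S
  have hc : ∀ v j, ({w | G.Adj v w ∧ w.2 = j}.ncard : ℝ) = if v.2 = j then 2 * (u : ℝ) else 2 * (a : ℝ) := by
    intro v j
    rw [cnt]
    split_ifs
    · rw [card_sym _ _ (by omega)]; simp
    · rw [card_sym _ _ (by omega)]; simp
  have hden : (α.den : ℝ) = u + ((k : ℝ) - 1) * a := by
    rw [hu]
    push_cast [Nat.cast_sub (show 1 ≤ k by omega)]
    rfl
  have hd : ∀ v, ((G.neighborSet v).ncard : ℝ) = 2 * α.den := by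
    intro v
    rw [ncard_split G Prod.snd, Nat.cast_sum, sum_congr rfl fun j _ => hc v j,
      ← add_sum_erase _ _ (mem_univ v.2), if_pos rfl,
      sum_congr rfl fun j hj => if_neg (ne_of_mem_erase hj).symm, sum_const, card_erase_of_mem (mem_univ _),
      hden, card_univ, Fintype.card_fin, nsmul_eq_mul, Nat.cast_sub (show 1 ≤ k by omega)]
    push_cast
    ring
  have hfat : IsFAT G k Prod.snd α := by
    have hαR : (α : ℝ) * α.den = a := by exact_mod_cast hα
    refine ⟨fun j => ⟨(0, j), rfl⟩, by exact_mod_cast h0.le, ?_, fun v i => ?_⟩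
    · have : α ≤ 1 := h1.trans (by
        rw [div_le_one hk1]
        have : (2 : ℚ) ≤ k := by exact_mod_cast hk
        linarith)
      exact_mod_cast this
    · rw [hc, hd]
      split_ifs
      · linear_combination (-2) * hden + 2 * ((k : ℝ) - 1) * hαR
      · linear_combination (-2) * hαR
  have hub : ∀ k' ∈ {k | ∃ (c : ZMod p × Fin _ → Fin k) (α : ℝ), IsFAT G k c α}, k' ≤ k := by
    rintro k' ⟨c, β, hs, -, -, hβ⟩
    have hcc : ∀ i x y, c (x, i) = c (y, i) := by
      intro i x y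
      by_contra hxy
      let e : ZMod p × Fin k → Fin k' → ℤ := fun v j => ({w | G.Adj v w ∧ c w = j}.ncard : ℤ)
      have := const_fibre k hk (sym p 0 u) (sym p u (u + a)) ((u + a : ℕ) : ZMod p)
        ((u + a + 1 : ℕ) : ZMod p) hτ ((hm _ _ _ (by omega) (by omega)).not.2 (by omega))
        (hne _ (by omega) (by omega)) ((hm _ _ _ (by omega) (by omega)).not.2 (by omega))
        ((hm _ _ _ (by omega) (by omega)).not.2 (by omega)) (hne _ (by omega) (by omega))
        (fun w => (if c w = c (x, i) then 1 else 0) - if c w = c (y, i) then 1 else 0)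
        (e (x, i) (c (x, i)) - e (x, i) (c (y, i))) (fun v => by
          have e1 : ∀ j, e v j = ∑ w : ZMod p × Fin k, if w.1 - v.1 ∈
              (if v.2 = w.2 then sym p 0 u else sym p u (u + a)) then (if c w = j then 1 else 0) else 0 := by
            intro j
            simp only [← ite_and, sum_boole, e]
            rw [← Set.ncard_coe_finset]
            congr 2
            ext w
            simp [G, gr]
          trans e v (c (x, i)) - e v (c (y, i))
          · rw [e1, e1, ← sum_sub_distrib]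
            refine sum_congr rfl fun w _ => ?_
            split_ifs <;> rfl
          · apply Int.cast_injective (α := ℝ)
            simp only [e]
            push_cast
            rw [hβ, hβ, hβ, hβ, hd, hd, if_pos rfl, if_neg hxy]
            by_cases c1 : c v = c (x, i)
            · rw [if_pos c1, if_pos c1, if_neg (c1 ▸ hxy), if_neg (c1 ▸ hxy)]
              ring
            · rw [if_neg c1, if_neg c1]
              split_ifs <;> ring) i x y
      simp [hxy, Ne.symm hxy] at this
    have : Function.Surjective fun i => c (0, i) := fun j => by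
      obtain ⟨⟨x, i⟩, rfl⟩ := hs j
      exact ⟨i, hcc i 0 x⟩
    simpa using Fintype.card_le_of_surjective _ this
  refine ⟨ZMod p × Fin k, inferInstance, G, ?_, ?_,
    le_antisymm (csSup_le ⟨k, _, _, hfat⟩ hub) (le_csSup ⟨k, hub⟩ ⟨_, _, hfat⟩), _, hfat⟩
  · rw [Fintype.card_prod, ZMod.card, Fintype.card_fin]
    nlinarith
  · have : Nontrivial (Fin k) := Fin.nontrivial_iff_two_le.2 hk
    have step : ∀ x i j, i ≠ j → G.Adj (x, i) (x + ((u + a : ℕ) : ZMod p), j) := by
      intro x i j hij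
      simpa [G, gr, hij] using hτ
    have same : ∀ i x y, G.Reachable (x, i) (y, i) := by
      intro i x y
      obtain ⟨j, hj⟩ := exists_ne i
      have h2 : ∀ n : ℕ, G.Reachable (x, i) (x + n * ((2 * (u + a) : ℕ) : ZMod p), i) := by
        intro n
        induction n with
        | zero => simp
        | succ n ih =>
          refine ih.trans ((step _ i j hj.symm).reachable.trans ?_)
          convert (step _ j i hj).reachable using 2
          push_cast
          ring
      convert h2 ((y - x) / ((2 * (u + a) : ℕ) : ZMod p)).val using 2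
      rw [ZMod.natCast_zmod_val, div_mul_cancel₀ _ (hne _ (by omega) (by omega))]
      ring
    have : Nonempty (ZMod p × Fin k) := ⟨(0, ⟨0, by omega⟩)⟩
    refine ⟨fun ⟨x, i⟩ ⟨y, j⟩ => ?_⟩
    by_cases hij : i = j
    · exact hij ▸ same i x y
    · exact (step x i j hij).reachable.trans (same j _ y)

end Pool.Agent.Results.MP_2d49c6_co.Exists
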